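import Pool.Agent.LarsenW.Main

set_option autoImplicit false

/-!
# Sums of two k-th powers of matrices over finite fields

For every positive integer `k` all but finitely many of the matrix rings over finite fields have the
property that each of their elements is a sum of two `k`-th powers.
-/

namespace Pool.Agent.Results.MP_c4bad2_al.TwoPowers

universe u

/-- The set of the `n × n` matrices over `F` which are a sum of two `k`-th powers. -/
def sumsOfTwoPowers (k n : ℕ) (F : Type u) [Field F] : Set (Matrix (Fin n) (Fin n) F) :=
  {M | ∃ A B : Matrix (Fin n) (Fin n) F, A ^ k + B ^ k = M}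

/-- For every positive integer `k` there is an integer `N`, depending on `k` alone, such that for all
`n` and all prime powers `q` with `q ^ (n ^ 2) ≥ N`, every `n × n` matrix over every field with `q`
elements is a sum of two `k`-th powers. -/
theorem result (k : ℕ) (hk : 0 < k) :
    ∃ N : ℕ, ∀ n q : ℕ, IsPrimePow q → N ≤ q ^ (n ^ 2) →
      ∀ (F : Type u) [Field F], Nat.card F = q → sumsOfTwoPowers k n F = Set.univ := by
  obtain ⟨N, hN⟩ := Pool.Agent.LarsenW.larsen k hk
  refine ⟨N, fun n q hq hNq F _ hF => ?_⟩
  have hfin : Finite F := Nat.finite_of_card_ne_zero (by rw [hF]; exact hq.pos.ne')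
  have : Small.{0} F := Countable.toSmall F
  have : Finite (Shrink.{0} F) := Finite.of_equiv F (equivShrink F)
  have : Fintype (Shrink.{0} F) := Fintype.ofFinite _
  let φ : Shrink.{0} F ≃+* F := Shrink.ringEquiv F
  have hcard : Fintype.card (Shrink.{0} F) = q := by
    rw [← Nat.card_eq_fintype_card, ← hF]
    exact Nat.card_congr (equivShrink F).symm
  refine Set.eq_univ_of_forall fun M => ?_
  obtain ⟨X, Y, hXY⟩ := hN n (Shrink.{0} F) (by rw [hcard]; exact hNq) (φ.symm.mapMatrix M)
  refine ⟨φ.mapMatrix X, φ.mapMatrix Y, ?_⟩
  rw [← map_pow, ← map_pow, ← map_add, ← hXY]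
  ext i j
  simp [RingEquiv.mapMatrix]

end Pool.Agent.Results.MP_c4bad2_al.TwoPowers
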